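import Mathlib
import Pool.Agent.Lib.helper29.BadSets

namespace Pool.Agent.Results.MP_726576_nt.PowersOfTwoPlusOne

open Finset Pool.Agent.Lib.H29.BadSets

theorem result : ∃ a : ℕ → ℂ, (∀ n : ℕ, 1 ≤ n → ‖a n‖ = 1) ∧
    ∃ C : ℝ, ∀ d n : ℕ, 1 ≤ d → 1 ≤ n →
      ‖∑ k ∈ Finset.Icc 1 n,
        Set.indicator {k : ℕ | ∃ m : ℕ, 1 ≤ m ∧ k = 2 ^ m + 1} (fun k => a (d * k)) k‖ ≤ C := by
  refine ⟨arch, fun n _ => arch_norm n, 6, fun d n hd _ => ?_⟩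
  refine bad_of (fun m => 2 ^ (m + 1) + 1) ?_ (by simp) _ ?_ arch (fun n _ => arch_norm n) ?_ 6
    arch_bound d n hd
  · refine strictMono_nat_of_lt_succ (fun m => ?_)
    have : 0 < 2 ^ (m + 1) := by positivity
    rw [pow_succ 2 (m + 1)]
    omega
  · intro k _
    constructor
    · rintro ⟨m, hm, rfl⟩
      exact ⟨m - 1, by simp only [Nat.sub_add_cancel hm]⟩
    · rintro ⟨m, rfl⟩
      exact ⟨m + 1, by omega, rfl⟩
  · intro m n hm hn
    exact arch_mul hm hn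

end Pool.Agent.Results.MP_726576_nt.PowersOfTwoPlusOne
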