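import Mathlib
import Pool.Agent.Lib.helper29.BadSets

namespace Pool.Agent.Results.MP_726576_nt.SquaresMinusOne

open Finset Pool.Agent.Lib.H29.BadSets

theorem result : ∃ a : ℕ → ℂ, (∀ n : ℕ, 1 ≤ n → ‖a n‖ = 1) ∧
    ∃ C : ℝ, ∀ d n : ℕ, 1 ≤ d → 1 ≤ n →
      ‖∑ k ∈ Finset.Icc 1 n,
        Set.indicator {k : ℕ | ∃ m : ℕ, 1 ≤ m ∧ k + 1 = m ^ 2} (fun k => a (d * k)) k‖ ≤ C := by
  have hn : ∀ n : ℕ, 1 ≤ n → ‖(e8 n : ℂ)‖ = 1 := by
    intro n hn
    rcases e8_pm (n := n) (by omega) with h | h <;> simp [h]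
  refine ⟨fun n => (e8 n : ℂ), hn, 6, fun d n hd _ => ?_⟩
  refine bad_of (fun m => (m + 1) * (m + 3)) ?_ (by simp) _ ?_ (fun n => (e8 n : ℂ)) hn ?_ 6 ?_
    d n hd
  · refine strictMono_nat_of_lt_succ (fun m => ?_)
    nlinarith
  · intro k hk
    constructor
    · rintro ⟨m, hm, h⟩
      obtain ⟨j, rfl⟩ : ∃ j, m = j + 2 := by
        refine ⟨m - 2, ?_⟩
        have : m ≠ 1 := by rintro rfl; omega
        omega
      exact ⟨j, by nlinarith⟩
    · rintro ⟨m, rfl⟩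
      exact ⟨m + 2, by omega, by ring⟩
  · intro m n _ _
    simp [e8_mul]
  · intro M
    have : ∑ m ∈ range M, (e8 ((m + 1) * (m + 3)) : ℂ) = ((∑ m ∈ range M, tm m : ℤ) : ℂ) := by
      push_cast
      exact sum_congr rfl (fun m _ => by rw [e8_mul]; rfl)
    rw [this, Complex.norm_intCast]
    exact_mod_cast tm_bound M

end Pool.Agent.Results.MP_726576_nt.SquaresMinusOne
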