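import Mathlib
import Pool.Agent.Lib.helper29.BadSets

namespace Pool.Agent.Results.MP_726576_nt.SquaresPlusOne

open Finset Pool.Agent.Lib.H29.BadSets

theorem result : ∃ a : ℕ → ℂ, (∀ n : ℕ, 1 ≤ n → ‖a n‖ = 1) ∧
    ∃ C : ℝ, ∀ d n : ℕ, 1 ≤ d → 1 ≤ n →
      ‖∑ k ∈ Finset.Icc 1 n,
        Set.indicator {k : ℕ | ∃ m : ℕ, 1 ≤ m ∧ k = m ^ 2 + 1} (fun k => a (d * k)) k‖ ≤ C := by
  have hn : ∀ n : ℕ, 1 ≤ n → ‖(v2s n : ℂ)‖ = 1 := by
    intro n _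
    unfold v2s
    simp
  refine ⟨fun n => (v2s n : ℂ), hn, 1, fun d n hd _ => ?_⟩
  refine bad_of (fun m => (m + 1) ^ 2 + 1) ?_ (by simp) _ ?_ (fun n => (v2s n : ℂ)) hn ?_ 1 ?_
    d n hd
  · refine strictMono_nat_of_lt_succ (fun m => ?_)
    have := Nat.pow_lt_pow_left (Nat.lt_succ_self (m + 1)) (n := 2) (by norm_num)
    exact Nat.succ_lt_succ this
  · intro k _
    constructor
    · rintro ⟨m, hm, rfl⟩
      exact ⟨m - 1, by simp only [Nat.sub_add_cancel hm]⟩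
    · rintro ⟨m, rfl⟩
      exact ⟨m + 1, by omega, rfl⟩
  · intro m n hm hn
    simp [v2s_mul hm hn]
  · intro M
    simp only [v2s_sq]
    push_cast
    rw [sum_neg_distrib, norm_neg]
    exact norm_alt M

end Pool.Agent.Results.MP_726576_nt.SquaresPlusOne
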